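import Pool.Agent.helper83.FI4B.SpecI2
import Pool.Agent.helper20.FI4.CJR

/-!
# Project fi4, version FI4+ (MP_baa4d7_al): row BCJ
-/

set_option autoImplicit false

namespace Pool.Agent.FI4B

open Pool.Agent.helper58.DC Pool.Agent.DI Pool.Agent.GR Pool.Agent.OB Pool.Agent.DR Pool.Agent.FI Pool.Agent.FI3 Pool.Agent.FI4 Pool.Agent.FI4I

theorem BCJ (hTTC : TTC_stmt) (hCON : CON_stmt) (hFEQ : FEQ_stmt) (hSYL : SYL_stmt) : BCJ_stmt := by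
  classical
  intro p M hM G _ _ D x θ χ hRt g θ₁ hθ₁ hInd
  obtain ⟨hRt1, hiI1, -⟩ := CJR hTTC hCON hFEQ hSYL p M hM G D x θ χ hRt g θ₁ hθ₁ hInd
  refine ⟨hRt1, hiI1, ?_⟩
  have hc : Nat.card (cjS g D) = Nat.card D :=
    (hFEQ G M g 1 D D D θ θ χ).2.1.2.2.2.2.2
  obtain ⟨h, hle, hSB⟩ := hCON p M hM G D x θ χ hRt (cjS g D) hRt1.dfa.pgrp θ₁ hθ₁ hInd
  have hle' : cjS h (cjS g D) ≤ D := hle
  have hcard2 : Nat.card (cjS h (cjS g D)) = Nat.card D := by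
    rw [← hc]
    exact (hFEQ G M h 1 (cjS g D) D D θ θ χ).2.1.2.2.2.2.2
  have hD : cjS h (cjS g D) = D := Subgroup.eq_of_le_of_card_ge hle' hcard2.ge
  have hSB' : SB M (cz (cjS h (cjS g D))) θ (cjF h θ₁) := hSB
  rw [hD] at hSB'
  have hθ' : cjF h θ₁ ∈ IrrOn (cz D) := by
    have h1 := (hFEQ G M h 1 (cjS g D) D (cz (cjS g D)) θ θ₁ χ).2.2.2.1.1 hθ₁
    have h2 : cz (cjS h (cjS g D)) = cjS h (cz (cjS g D)) := (hFEQ G M h 1 (cjS g D) D D θ θ χ).2.1.1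
    rw [← h2, hD] at h1
    exact h1
  obtain ⟨t1, t2⟩ := hTTC G M D
  have hTT : TT M D θ = TT M D (cjF h θ₁) := t1 θ hRt.th (cjF h θ₁) hθ' hSB'
  obtain ⟨t0, -, -, -⟩ := t2 (cjF h θ₁) hθ' h⁻¹
  have e1 : cjS h⁻¹ D = cjS g D := by
    have h1 := (hFEQ G M h⁻¹ h (cjS g D) D D θ θ χ).1.1
    rw [hD, inv_mul_cancel] at h1
    rw [h1]
    exact (hFEQ G M h⁻¹ h (cjS g D) D D θ θ χ).1.2.2.1
  have e2 : cjF h⁻¹ (cjF h θ₁) = θ₁ := by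
    have h1 := (hFEQ G M h⁻¹ h D D D θ θ₁ χ).1.2.1
    rw [inv_mul_cancel] at h1
    rw [h1]
    exact (hFEQ G M h⁻¹ h D D D θ θ₁ χ).1.2.2.2
  rw [e1, e2, ← hTT] at t0
  -- `t0 : TT M (cjS g D) θ₁ = cjS h⁻¹ (TT M D θ)`
  have hcz : cz (cjS g D) = cjS h⁻¹ (cz D) := by
    rw [← e1]
    exact (hFEQ G M h⁻¹ 1 D D D θ θ χ).2.1.1
  rintro ⟨S, hS1, hS2, hS3⟩
  refine ⟨S.image (cjS h⁻¹), ?_, ?_, ?_⟩
  · intro H hH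
    rw [Finset.mem_image] at hH
    obtain ⟨H0, hH0, rfl⟩ := hH
    obtain ⟨ha, hb⟩ := hS1 H0 hH0
    have f := hFEQ G M h⁻¹ 1 H0 D D θ θ χ
    constructor
    · rw [← e1]
      exact f.2.1.2.2.1.2 ha
    · rw [← e1]
      exact (f.2.2.2.2.2.2.2.2).trans hb
  · intro u hu hnu
    rw [← e1] at hu
    have hu0 : (h⁻¹)⁻¹ * u * h⁻¹ ∈ D := mem_cjS.1 hu
    obtain ⟨H, hH, huH⟩ := hS2 ((h⁻¹)⁻¹ * u * h⁻¹) hu0 (by
      intro hreg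
      apply hnu
      refine ⟨by rw [← e1]; exact hu, ?_⟩
      intro t ht htu
      rw [t0] at ht
      have ht0 : (h⁻¹)⁻¹ * t * h⁻¹ ∈ TT M D θ := mem_cjS.1 ht
      rw [hcz]
      apply mem_cjS.2
      apply hreg.2 _ ht0
      have k1 : (h⁻¹)⁻¹ * t * h⁻¹ * ((h⁻¹)⁻¹ * u * h⁻¹) = (h⁻¹)⁻¹ * (t * u) * h⁻¹ := by group
      have k2 : (h⁻¹)⁻¹ * u * h⁻¹ * ((h⁻¹)⁻¹ * t * h⁻¹) = (h⁻¹)⁻¹ * (u * t) * h⁻¹ := by group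
      rw [k1, k2, htu])
    exact ⟨cjS h⁻¹ H, Finset.mem_image_of_mem _ hH, mem_cjS.2 huH⟩
  · have hcard : (S.image (cjS h⁻¹)).card ≤ S.card := Finset.card_image_le
    rw [hiI1]
    omega

end Pool.Agent.FI4B
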